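import Pool.Agent.H93.EN.Targets4

/-!
# Row GS of en_modules: the Green identity near the points of the sides
-/

set_option autoImplicit false

namespace Pool.Agent.H1.EN

open MeasureTheory Set Metric Filter Topology Pool.Agent.H93.EN
open Pool.Agent.H93.BL hiding T_B1 T_B2 T_B3 T_SB T_SC

theorem gs_alg (a b : ℂ) :
    ((starRingEnd ℂ) (Complex.I / 2 * (b - a)) * (1 / 2 * (a + b))).im =
      (‖a‖ ^ 2 - ‖b‖ ^ 2) / 4 := by
  rw [← Complex.normSq_eq_norm_sq, ← Complex.normSq_eq_norm_sq, Complex.normSq_apply,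
    Complex.normSq_apply]
  simp only [map_mul, map_div₀, Complex.conj_I, map_ofNat, map_sub, Complex.mul_im, Complex.mul_re,
    Complex.add_re, Complex.add_im, Complex.sub_re, Complex.sub_im, Complex.conj_re,
    Complex.conj_im, Complex.neg_re, Complex.neg_im, Complex.I_re, Complex.I_im,
    Complex.div_ofNat_re, Complex.div_ofNat_im, Complex.one_re, Complex.one_im]
  ring

theorem gs_sg_zero {ι : Type} (P : Polygon ι) (j : ι) {x : ℂ}
    (hx : x ∈ openSegment ℝ (P.p j) (P.q j)) : sg P j x = 0 := by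
  obtain ⟨s, -, -, rfl⟩ := (P.mem_openSegment_iff j x).1 hx
  unfold sg
  rw [add_sub_cancel_left, cr_smul_right, cr_self, mul_zero]

theorem gs_open {ι : Type} (P : Polygon ι) (j : ι) : IsOpen {x : ℂ | 0 < sg P j x} := by
  refine isOpen_lt continuous_const ?_
  unfold sg
  exact (continuous_cr_right (P.u j)).comp (continuous_id.sub continuous_const)

/-- integrand of the left side -/
noncomputable def lhs (X : ℂ → ℂ → ℂ → ℝ) (δ : ℝ) (k : ℤ) (η : ℂ → ℝ) (x : ℂ) : ℝ :=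
  η x * ((‖hX X δ (k + 1) x‖ ^ 2 - ‖hX X δ (k - 1) x‖ ^ 2) / 4)

theorem gs_half (h2 : T_GRH) (h3 : T_U1) (h4 : T_U3) (h5 : T_U4) (h6 : T_U5) {ι : Type}
    (D : Dat ι) {δ : ℝ} (hδ : 0 < δ) (j : ι) {x₀ : ℂ}
    (hx₀ : x₀ ∈ openSegment ℝ (D.P.p j) (D.P.q j)) (h9 : 9 * δ < D.κ * D.rho x₀) (k : ℤ) :
    ∃ s > (0 : ℝ), ∀ η : ℂ → ℝ, ContDiff ℝ 2 η → tsupport η ⊆ ball x₀ s →
      IntegrableOn (lhs D.X δ k η) {x | 0 < sg D.P j x} ∧
      IntegrableOn (grn D.X δ k η) {x | 0 < sg D.P j x} ∧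
      ∫ x in {x | 0 < sg D.P j x}, lhs D.X δ k η x =
        -(1 / 2) * ∫ x in {x | 0 < sg D.P j x}, grn D.X δ k η x := by
  obtain ⟨s₁, hs₁, Φ, hB, hInv, hsym, hside⟩ := D.side j x₀ hx₀
  have hR : 4 * δ < D.κ * infDist x₀ D.B / 2 := by
    have : 9 * δ < D.κ * infDist x₀ D.B := h9
    linarith
  refine ⟨min s₁ δ, lt_min hs₁ hδ, ?_⟩
  intro η hη hsupp
  have hv := h3 Φ hB δ hδ k
  have hcont : ∀ m : ℤ, Continuous (fun x => md (Hl Φ δ x) m) := fun m =>
    (h3 Φ hB δ hδ m).2.2.2.1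
  have hcomp : HasCompactSupport η := by
    refine (isCompact_closedBall x₀ (min s₁ δ)).of_isClosed_subset (isClosed_tsupport η) ?_
    exact hsupp.trans ball_subset_closedBall
  have hdist : ∀ x ∈ ball x₀ (min s₁ δ), dist x x₀ + δ < D.κ * infDist x₀ D.B / 2 := by
    intro x hx
    have h1 : dist x x₀ < δ := lt_of_lt_of_le (mem_ball.1 hx) (min_le_right _ _)
    linarith
  -- the functions of the extension
  set v : ℂ → ℂ := fun x => md (Ml Φ δ x) k with hvdef
  let F1 : ℂ → ℝ := fun x => η x * ((‖md (Hl Φ δ x) (k + 1)‖ ^ 2 - ‖md (Hl Φ δ x) (k - 1)‖ ^ 2) / 4)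
  let F2 : ℂ → ℝ := fun x => ((starRingEnd ℂ) (v x) *
    ((fderiv ℝ η x 1 : ℂ) * ((md (Hl Φ δ x) (k + 1) + md (Hl Φ δ x) (k - 1)) / 2) -
      (fderiv ℝ η x Complex.I : ℂ) *
        (Complex.I / 2 * (md (Hl Φ δ x) (k - 1) - md (Hl Φ δ x) (k + 1))))).im
  have hη0 : ∀ x, x ∉ tsupport η → η x = 0 := fun x hx => image_eq_zero_of_notMem_tsupport hx
  have hdη0 : ∀ x, x ∉ tsupport η → fderiv ℝ η x = 0 := fun x hx => by
    have := support_fderiv_subset ℝ (f := η)
    by_contra h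
    exact hx (this (Function.mem_support.2 h))
  have hη1 : Continuous (fderiv ℝ η) := hη.continuous_fderiv (by norm_num)
  have hF1c : Continuous F1 := by
    refine hη.continuous.mul ((((hcont (k + 1)).norm.pow 2).sub ((hcont (k - 1)).norm.pow 2)).div_const 4)
  have hF2c : Continuous F2 := by
    have e1 : Continuous fun x => ((fderiv ℝ η x 1 : ℝ) : ℂ) :=
      Complex.continuous_ofReal.comp (hη1.clm_apply continuous_const)
    have e2 : Continuous fun x => ((fderiv ℝ η x Complex.I : ℝ) : ℂ) :=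
      Complex.continuous_ofReal.comp (hη1.clm_apply continuous_const)
    have e3 : Continuous fun x => (starRingEnd ℂ) (v x) :=
      Complex.continuous_conj.comp hv.1.continuous
    refine Complex.continuous_im.comp (e3.mul ((e1.mul
      (((hcont (k + 1)).add (hcont (k - 1))).div_const 2)).sub
        (e2.mul (continuous_const.mul ((hcont (k - 1)).sub (hcont (k + 1)))))))
  have hF1s : HasCompactSupport F1 := hcomp.mul_right
  have hF2s : HasCompactSupport F2 := by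
    refine HasCompactSupport.intro' hcomp (isClosed_tsupport η) ?_
    intro x hx
    change ((starRingEnd ℂ) (v x) *
      ((fderiv ℝ η x 1 : ℂ) * ((md (Hl Φ δ x) (k + 1) + md (Hl Φ δ x) (k - 1)) / 2) -
      (fderiv ℝ η x Complex.I : ℂ) *
        (Complex.I / 2 * (md (Hl Φ δ x) (k - 1) - md (Hl Φ δ x) (k + 1))))).im = 0
    rw [hdη0 x hx]
    simp
  have hF1i : Integrable F1 := hF1c.integrable_of_hasCompactSupport hF1s
  have hF2i : Integrable F2 := hF2c.integrable_of_hasCompactSupport hF2s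
  have hmeas : MeasurableSet {x : ℂ | 0 < sg D.P j x} := (gs_open D.P j).measurableSet
  -- agreement
  have hag : ∀ x ∈ ball x₀ (min s₁ δ), 0 < sg D.P j x → uX D.X δ k x = v x ∧
      ∀ m : ℤ, hX D.X δ m x = md (Hl Φ δ x) m := by
    intro x hx hsg
    have h1 := (hside x (ball_subset_ball (min_le_left _ _) hx) hsg).2
    have h7 := h5 (D.X x) Φ x₀ _ h1 δ hδ x (hdist x hx).le
    refine ⟨?_, fun m => ?_⟩
    · unfold uX
      rw [h7.1]
    · unfold hX
      rw [h7.2.2]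
  have hf1 : ∀ x ∈ {x : ℂ | 0 < sg D.P j x}, lhs D.X δ k η x = F1 x := by
    intro x hx
    change η x * ((‖hX D.X δ (k + 1) x‖ ^ 2 - ‖hX D.X δ (k - 1) x‖ ^ 2) / 4) =
      η x * ((‖md (Hl Φ δ x) (k + 1)‖ ^ 2 - ‖md (Hl Φ δ x) (k - 1)‖ ^ 2) / 4)
    by_cases hxt : x ∈ tsupport η
    · have h7 := (hag x (hsupp hxt) hx).2
      rw [h7, h7]
    · rw [hη0 x hxt, zero_mul, zero_mul]
  have hf2 : ∀ x ∈ {x : ℂ | 0 < sg D.P j x}, grn D.X δ k η x = F2 x := by
    intro x hx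
    unfold grn
    change _ = ((starRingEnd ℂ) (v x) *
      ((fderiv ℝ η x 1 : ℂ) * ((md (Hl Φ δ x) (k + 1) + md (Hl Φ δ x) (k - 1)) / 2) -
      (fderiv ℝ η x Complex.I : ℂ) *
        (Complex.I / 2 * (md (Hl Φ δ x) (k - 1) - md (Hl Φ δ x) (k + 1))))).im
    by_cases hxt : x ∈ tsupport η
    · obtain ⟨h8, h7⟩ := hag x (hsupp hxt) hx
      rw [h8, h7, h7]
    · rw [hdη0 x hxt]
      simp
  refine ⟨?_, ?_, ?_⟩
  · exact hF1i.integrableOn.congr_fun (fun x hx => (hf1 x hx).symm) hmeas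
  · exact hF2i.integrableOn.congr_fun (fun x hx => (hf2 x hx).symm) hmeas
  · rw [setIntegral_congr_fun hmeas hf1, setIntegral_congr_fun hmeas hf2]
    have hGR := h2 v η (D.P.u j) (D.P.p j) hv.1 hη hcomp (D.P.norm_u j) (by
      intro x hx h0
      exact (h6 ι D.P j Φ x₀ _ hB hsym (gs_sg_zero D.P j hx₀) δ hδ x (hdist x (hsupp hx)) h0 k).2)
    have e1 : ∫ x in {x : ℂ | 0 < sg D.P j x}, F1 x =
        ∫ x in {x | 0 < cr (D.P.u j) (x - D.P.p j)},
          η x * ((starRingEnd ℂ) (fderiv ℝ v x 1) * fderiv ℝ v x Complex.I).im := by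
      refine setIntegral_congr_fun hmeas ?_
      intro x _
      change η x * ((‖md (Hl Φ δ x) (k + 1)‖ ^ 2 - ‖md (Hl Φ δ x) (k - 1)‖ ^ 2) / 4) = _
      by_cases hxt : x ∈ tsupport η
      · obtain ⟨h7, h8⟩ := h4 Φ hB x₀ _ hInv δ hδ x (hdist x (hsupp hxt)) k
        have h7' : fderiv ℝ v x 1 =
          Complex.I / 2 * (md (Hl Φ δ x) (k - 1) - md (Hl Φ δ x) (k + 1)) := h7
        have h8' : fderiv ℝ v x Complex.I =
          1 / 2 * (md (Hl Φ δ x) (k + 1) + md (Hl Φ δ x) (k - 1)) := h8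
        beta_reduce
        rw [h7', h8', gs_alg]
      · beta_reduce
        rw [hη0 x hxt, zero_mul, zero_mul]
    have e2 : ∫ x in {x : ℂ | 0 < sg D.P j x}, F2 x =
        ∫ x in {x | 0 < cr (D.P.u j) (x - D.P.p j)},
          ((starRingEnd ℂ) (v x) * ((fderiv ℝ η x 1 : ℂ) * fderiv ℝ v x Complex.I -
            (fderiv ℝ η x Complex.I : ℂ) * fderiv ℝ v x 1)).im := by
      refine setIntegral_congr_fun hmeas ?_
      intro x _
      change ((starRingEnd ℂ) (v x) *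
        ((fderiv ℝ η x 1 : ℂ) * ((md (Hl Φ δ x) (k + 1) + md (Hl Φ δ x) (k - 1)) / 2) -
        (fderiv ℝ η x Complex.I : ℂ) *
          (Complex.I / 2 * (md (Hl Φ δ x) (k - 1) - md (Hl Φ δ x) (k + 1))))).im = _
      by_cases hxt : x ∈ tsupport η
      · obtain ⟨h7, h8⟩ := h4 Φ hB x₀ _ hInv δ hδ x (hdist x (hsupp hxt)) k
        have h7' : fderiv ℝ v x 1 =
          Complex.I / 2 * (md (Hl Φ δ x) (k - 1) - md (Hl Φ δ x) (k + 1)) := h7
        have h8' : fderiv ℝ v x Complex.I =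
          1 / 2 * (md (Hl Φ δ x) (k + 1) + md (Hl Φ δ x) (k - 1)) := h8
        beta_reduce
        rw [h7', h8']
        congr 1
        ring
      · beta_reduce
        rw [hdη0 x hxt]
        simp
    rw [e1, e2]
    exact hGR

theorem gs_ind {f : ℂ → ℝ} {S T B : Set ℂ} (hS : MeasurableSet S) (hT : MeasurableSet T)
    (hf : ∀ x, x ∉ B → f x = 0) (h : ∀ x ∈ B, x ∈ S ↔ x ∈ T) :
    ∫ x in S, f x = ∫ x in T, f x := by
  rw [← integral_indicator hS, ← integral_indicator hT]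
  congr 1
  funext x
  by_cases hx : x ∈ B
  · by_cases hxS : x ∈ S
    · rw [indicator_of_mem hxS, indicator_of_mem ((h x hx).1 hxS)]
    · rw [indicator_of_notMem hxS, indicator_of_notMem (fun h' => hxS ((h x hx).2 h'))]
  · have h0 := hf x hx
    by_cases hxS : x ∈ S <;> by_cases hxT : x ∈ T <;> simp [hxS, hxT, h0]

theorem gs (h1 : T_SD0) (h2 : T_GRH) (h3 : T_U1) (h4 : T_U3) (h5 : T_U4) (h6 : T_U5) : T_GS := by
  intro ι _ D δ hδ j x₀ hx₀ h9 k
  obtain ⟨s₁, hs₁, H1⟩ := gs_half h2 h3 h4 h5 h6 D hδ j hx₀ h9 k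
  obtain ⟨s₀, hs₀, hstr⟩ := h1 ι D.P j x₀ hx₀
  have hΩm : MeasurableSet D.P.Ω := D.P.isOpen.measurableSet
  have hmeas : ∀ i, MeasurableSet {x : ℂ | 0 < sg D.P i x} := fun i =>
    (gs_open D.P i).measurableSet
  have hzero1 : ∀ (η : ℂ → ℝ) (B : Set ℂ), tsupport η ⊆ B → ∀ x, x ∉ B →
      lhs D.X δ k η x = 0 := by
    intro η B hB x hx
    unfold lhs
    rw [image_eq_zero_of_notMem_tsupport (fun h => hx (hB h)), zero_mul]
  have hzero2 : ∀ (η : ℂ → ℝ) (B : Set ℂ), tsupport η ⊆ B → ∀ x, x ∉ B →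
      grn D.X δ k η x = 0 := by
    intro η B hB x hx
    have hd : fderiv ℝ η x = 0 := by
      have := support_fderiv_subset ℝ (f := η)
      by_contra h
      exact hx (hB (this (Function.mem_support.2 h)))
    unfold grn
    rw [hd]
    simp
  rcases hstr with hstr | ⟨j', hj1, hj2, hsg, hstr⟩
  · refine ⟨min s₁ s₀, lt_min hs₁ hs₀, ?_⟩
    intro η hη hsupp
    obtain ⟨-, -, hI⟩ := H1 η hη (hsupp.trans (ball_subset_ball (min_le_left _ _)))
    have hb : tsupport η ⊆ ball x₀ s₀ := hsupp.trans (ball_subset_ball (min_le_right _ _))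
    have e1 := gs_ind hΩm (hmeas j) (hzero1 η _ hb) (fun x hx => hstr x hx)
    have e2 := gs_ind hΩm (hmeas j) (hzero2 η _ hb) (fun x hx => hstr x hx)
    change ∫ x in D.P.Ω, lhs D.X δ k η x = -(1 / 2) * ∫ x in D.P.Ω, grn D.X δ k η x
    rw [e1, e2]
    exact hI
  · have hx' : x₀ ∈ openSegment ℝ (D.P.p j') (D.P.q j') := by
      rw [D.P.openSegment_reversed hj1 hj2]
      exact hx₀
    obtain ⟨s₂, hs₂, H2⟩ := gs_half h2 h3 h4 h5 h6 D hδ j' hx' h9 k
    refine ⟨min (min s₁ s₂) s₀, lt_min (lt_min hs₁ hs₂) hs₀, ?_⟩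
    intro η hη hsupp
    obtain ⟨a1, a2, a3⟩ := H1 η hη (hsupp.trans (ball_subset_ball
      ((min_le_left _ _).trans (min_le_left _ _))))
    obtain ⟨b1, b2, b3⟩ := H2 η hη (hsupp.trans (ball_subset_ball
      ((min_le_left _ _).trans (min_le_right _ _))))
    have hb : tsupport η ⊆ ball x₀ s₀ := hsupp.trans (ball_subset_ball (min_le_right _ _))
    have hU : ∀ x ∈ ball x₀ s₀, x ∈ D.P.Ω ↔
        x ∈ {x : ℂ | 0 < sg D.P j x} ∪ {x : ℂ | 0 < sg D.P j' x} := by
      intro x hx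
      rw [hstr x hx]
      change _ ↔ 0 < sg D.P j x ∨ 0 < sg D.P j' x
      rw [hsg]
      constructor
      · intro h
        rcases lt_or_gt_of_ne h with h' | h'
        · right; linarith
        · left; exact h'
      · rintro (h | h)
        · exact h.ne'
        · intro h'
          rw [h'] at h
          simp at h
    have hdis : Disjoint {x : ℂ | 0 < sg D.P j x} {x : ℂ | 0 < sg D.P j' x} := by
      rw [Set.disjoint_left]
      intro x hx hx2
      have h7 : 0 < sg D.P j x := hx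
      have h8 : 0 < sg D.P j' x := hx2
      rw [hsg] at h8
      linarith
    have e1 := gs_ind hΩm ((hmeas j).union (hmeas j')) (hzero1 η _ hb) hU
    have e2 := gs_ind hΩm ((hmeas j).union (hmeas j')) (hzero2 η _ hb) hU
    change ∫ x in D.P.Ω, lhs D.X δ k η x = -(1 / 2) * ∫ x in D.P.Ω, grn D.X δ k η x
    rw [e1, e2, setIntegral_union hdis (hmeas j') a1 b1, setIntegral_union hdis (hmeas j') a2 b2,
      a3, b3]
    ring

end Pool.Agent.H1.EN
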