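import Pool.Agent.H65.EN.Targets
import Pool.Agent.H50.LVE.LOCa

/-! Row LOX of the board `enx_modules` (problem MP_e21eee_nt): the points seen by the functional for
one cell. -/

set_option autoImplicit false

namespace Pool.Agent.H1.EN

open Finset MeasureTheory
open Pool.Agent.H24.CL Pool.Agent.H24.LV Pool.Agent.H31.LV Pool.Agent.H50.LV Pool.Agent.H65.EN
open Pool.Agent.H50.LVE (one_le_Lam Lam_le meas)

private lemma tau_le (q : ℕ) : tau q ≤ q := Nat.card_divisors_le_self q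

private lemma one_le_tau {q : ℕ} (hq : 1 ≤ q) : 1 ≤ tau q :=
  Finset.card_pos.2 ⟨1, Nat.one_mem_divisors.2 (by omega)⟩

/-- the measure of the set -/
private lemma meas0 {k n m : ℕ} (h5 : T_MKV) (h6 : T_CIN) (s C₀ C₁ M' L : ℝ)
    (N q : ℕ) (a : Fin n → ℝ) (T : Fin n → ℕ) (ζ : Fin n → Fin m → UnitAddCircle) (hs : 2 ≤ s)
    (hC₀ : 1 ≤ C₀) (hC₁ : 1 ≤ C₁) (hM'0 : 0 < M')
    (hN0 : (0 : ℝ) < N) (hq1 : (1 : ℝ) ≤ q) (hL0 : 0 < L)
    (ha : ∀ c, 0 ≤ a c) (hT1 : ∀ c, 1 ≤ T c) (hS₁ : ∑ c, a c * T c ≤ C₀)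
    (hS₂ : ∑ c, a c ≤ C₀ * (q : ℝ) ^ (-(2 / (k : ℝ)))) :
    volume.real {y : UnitAddCircle | 1 / (2 * M') ≤ ∑ j : Fin n × Fin m,
      (C₁ * a j.1 * L ^ (-(2 / (k : ℝ)))) *
        (1 / (1 + (L ^ (-(2 / (k : ℝ))) * N / T j.1) * ‖T j.1 • y + ζ j.1 j.2‖))} ≤
      (2 ^ s * (C₁ * (m + 1)) ^ (s - 1) * (2 * C₁ * (m + 1))) * C₀ ^ s * M' ^ s *
        ((q : ℝ) * L) ^ (-(2 / (k : ℝ) * (s - 1))) / N := by
  have hq0 : (0 : ℝ) < q := by linarith
  have hC₀0 : 0 < C₀ := by linarith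
  have hC₁0 : 0 < C₁ := by linarith
  have key : ∀ ε : ℝ, 0 < ε → volume.real {y : UnitAddCircle | 1 / (2 * M') ≤
      ∑ j : Fin n × Fin m, (C₁ * a j.1 * L ^ (-(2 / (k : ℝ)))) *
        (1 / (1 + (L ^ (-(2 / (k : ℝ))) * N / T j.1) * ‖T j.1 • y + ζ j.1 j.2‖))} ≤
      (2 ^ s * (C₁ * (m + 1) * C₀) ^ (s - 1) * (2 * C₁ * (m + 1) * C₀)) * (q : ℝ) ^ ε * M' ^ s *
        ((q : ℝ) * L) ^ (-(2 / (k : ℝ) * (s - 1))) / N := by
    intro ε hε
    refine meas (m := m) h5 h6 s ε 0 C₀ C₁ M' q L N q a T ζ hs hε (by linarith) hC₀ hC₁ hM'0 hN0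
      hq1 le_rfl hL0 ha hT1 ?_ ?_
    · rw [Real.rpow_zero, mul_one]
      exact hS₁
    · rw [zero_sub]
      exact hS₂
  have hlim : Filter.Tendsto (fun ε : ℝ => (2 ^ s * (C₁ * (m + 1) * C₀) ^ (s - 1) *
      (2 * C₁ * (m + 1) * C₀)) * (q : ℝ) ^ ε * M' ^ s *
        ((q : ℝ) * L) ^ (-(2 / (k : ℝ) * (s - 1))) / N) (nhdsWithin 0 (Set.Ioi 0))
      (nhds ((2 ^ s * (C₁ * (m + 1) * C₀) ^ (s - 1) *
      (2 * C₁ * (m + 1) * C₀)) * (q : ℝ) ^ (0 : ℝ) * M' ^ s *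
        ((q : ℝ) * L) ^ (-(2 / (k : ℝ) * (s - 1))) / N)) := by
    refine Filter.Tendsto.mono_left ?_ nhdsWithin_le_nhds
    refine Filter.Tendsto.div_const (Filter.Tendsto.mul_const _ (Filter.Tendsto.mul_const _
      (Filter.Tendsto.const_mul _ ?_))) _
    exact (Real.continuousAt_const_rpow hq0.ne').tendsto
  have h1 := ge_of_tendsto hlim (Filter.eventually_of_mem self_mem_nhdsWithin fun ε hε => key ε hε)
  refine h1.trans (le_of_eq ?_)
  rw [Real.rpow_zero]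
  have e1 : (C₁ * (m + 1) * C₀) ^ (s - 1) = (C₁ * (m + 1)) ^ (s - 1) * C₀ ^ (s - 1) :=
    Real.mul_rpow (by positivity) hC₀0.le
  have e2 : C₀ ^ s = C₀ ^ (s - 1) * C₀ := by
    rw [← Real.rpow_add_one hC₀0.ne']
    ring_nf
  rw [e1, e2]
  ring

/-- the logarithm is small -/
private lemma log_small' (t : ℕ) (C₂ X R : ℝ) (hC₂ : 1 ≤ C₂) (hX : 1 ≤ X) (hR : 1 ≤ R)
    (hRX : R ≤ X) : 1 + Real.log (2 * (C₂ * X ^ (3 + t)) * R + 2) ≤
      (1 + Real.log (2 * C₂ + 2) + (4 + t)) * (1 + Real.log X) := by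
  have hX0 : 0 < X := by linarith
  have h1 : 2 * (C₂ * X ^ (3 + t)) * R + 2 ≤ (2 * C₂ + 2) * X ^ (4 + t) := by
    have h2 : C₂ * X ^ (3 + t) * R ≤ C₂ * X ^ (3 + t) * X :=
      mul_le_mul_of_nonneg_left hRX (by positivity)
    have h3 : 1 ≤ X ^ (4 + t) := one_le_pow₀ hX
    have h4 : X ^ (4 + t) = X ^ (3 + t) * X := by
      rw [show 4 + t = (3 + t) + 1 by ring, pow_succ]
    have h5 : C₂ * X ^ (3 + t) * X = C₂ * X ^ (4 + t) := by rw [h4, mul_assoc]
    linarith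
  have hpos : 0 < 2 * (C₂ * X ^ (3 + t)) * R + 2 := by positivity
  have h4 : Real.log (2 * (C₂ * X ^ (3 + t)) * R + 2) ≤
      Real.log (2 * C₂ + 2) + (4 + t) * Real.log X := by
    refine (Real.log_le_log hpos h1).trans ?_
    rw [Real.log_mul (by positivity) (by positivity), Real.log_pow]
    push_cast
    exact le_rfl
  have h5 : 0 ≤ Real.log X := Real.log_nonneg hX
  have h7 : 0 ≤ Real.log (2 * C₂ + 2) := Real.log_nonneg (by linarith)
  have h8 : 0 ≤ Real.log (2 * C₂ + 2) * Real.log X := mul_nonneg h7 h5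
  have h9 : (0 : ℝ) ≤ t := Nat.cast_nonneg t
  nlinarith

theorem pf_LOX (h1 : T_RMC) (h2 : T_GIS) (h3 : T_FUN) (h4 : T_BND) (h5 : T_MKV) (h6 : T_CIN)
    (h7 : T_ARX) : T_LOX := by
  intro k hk
  obtain ⟨s₀, hA⟩ := h7 k (by omega)
  refine ⟨max s₀ 1, le_max_right _ _, fun s hs => ?_⟩
  obtain ⟨C₁, m, hC₁, hR⟩ := h1 k hk
  have hs0 : 0 < s := by linarith
  have hk0 : (0 : ℝ) < k := by exact_mod_cast (by omega : 0 < k)
  set C₂ : ℝ := 5 * k * C₁ + 200 * C₁ with hC₂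
  have hC₁0 : 0 < C₁ := by linarith
  have hC₂1 : 1 ≤ C₂ := by
    have : 0 ≤ 5 * k * C₁ := by positivity
    linarith
  set C₃ : ℝ := 1 + Real.log (2 * C₂ + 2) + (4 + s₀) with hC₃
  have hlog0 : 0 ≤ Real.log (2 * C₂ + 2) := Real.log_nonneg (by linarith)
  have hs₀0 : (0 : ℝ) ≤ s₀ := Nat.cast_nonneg s₀
  have hC₃1 : 1 ≤ C₃ := by linarith
  set E : ℝ := 2 ^ s * (C₁ * (m + 1)) ^ (s - 1) * (2 * C₁ * (m + 1)) with hE
  have hE0 : 0 ≤ E := by positivity
  refine ⟨1 + 32 * C₁ * (m + 1) * C₃ + E, ?_, ?_⟩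
  · have : 0 ≤ 32 * C₁ * (m + 1) * C₃ := by positivity
    linarith
  intro N q R M' Y f c₀ hN hq hqR hM' hY hCN hP hc₀
  have hq1 : (1 : ℝ) ≤ q := by exact_mod_cast hq
  have hq0 : (0 : ℝ) < q := by linarith
  have hR1 : 1 ≤ R := hq1.trans hqR
  have hR0 : 0 < R := by linarith
  have hM'0 : 0 < M' := by linarith
  have hN1 : (1 : ℝ) ≤ N := by exact_mod_cast hN
  have hN0 : (0 : ℝ) < N := by linarith
  have hτ1 : (1 : ℝ) ≤ tau q := by exact_mod_cast one_le_tau hq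
  have hτY : (tau q : ℝ) ^ s₀ ≤ Y := (pow_le_pow_right₀ hτ1 (le_max_left _ _)).trans hY
  have hY1 : 1 ≤ Y := (one_le_pow₀ hτ1).trans hτY
  have hY0 : 0 < Y := by linarith
  have hτR : (tau q : ℝ) ^ s₀ ≤ R ^ s₀ := by
    have h8 : (tau q : ℝ) ≤ q := by exact_mod_cast tau_le q
    exact pow_le_pow_left₀ (by positivity) (h8.trans hqR) _
  obtain ⟨n, a, T, x, ha, hAl, hS₁, hS₂⟩ := hA q f hq hP
  obtain ⟨τ₀, hτ₀⟩ := hR c₀
  set X : ℝ := R * M' with hX
  have hX1 : 1 ≤ X := one_le_mul_of_one_le_of_one_le hR1 hM'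
  have hX0 : 0 < X := by linarith
  have hRX : R ≤ X := by
    rw [hX]
    exact le_mul_of_one_le_right hR0.le hM'
  have hM'X : M' ≤ X := by
    rw [hX]
    exact le_mul_of_one_le_left hM'0.le hR1
  set Z : ℝ := C₂ * X ^ (3 + s₀) with hZ
  have hZ1 : 1 ≤ Z := by
    rw [hZ]
    exact one_le_mul_of_one_le_of_one_le hC₂1 (one_le_pow₀ hX1)
  have hZ0 : 0 < Z := by linarith
  have hL1 := one_le_Lam c₀
  have hL0 : 0 < Lam c₀ := by linarith
  have hLle : Lam c₀ ≤ 5 * k * R := by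
    have h := Lam_le c₀ (by linarith : (0 : ℝ) ≤ R + 3) hc₀
    have hk3 : (3 : ℝ) ≤ k := by exact_mod_cast hk
    have h12 : (k : ℝ) ≤ k * R := le_mul_of_one_le_right hk0.le hR1
    linarith
  have hCZ : C₁ * Lam c₀ ≤ Z := by
    rw [hZ, hC₂]
    have h8 : C₁ * Lam c₀ ≤ C₁ * (5 * k * R) := mul_le_mul_of_nonneg_left hLle hC₁0.le
    have h9 : R ≤ X ^ (3 + s₀) := hRX.trans (le_self_pow₀ hX1 (by omega))
    have h10 : (5 * k * C₁) * R ≤ (5 * k * C₁) * X ^ (3 + s₀) :=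
      mul_le_mul_of_nonneg_left h9 (by positivity)
    have h11 : 0 ≤ 200 * C₁ * X ^ (3 + s₀) := by positivity
    rw [add_mul]
    linarith
  have hA0 : 0 < Am c₀ := Real.rpow_pos_of_pos hL0 _
  set A : ℝ := Am c₀ with hAdef
  -- the bound for the functional
  have hT1 : ∀ c, 1 ≤ T c := fun c => Nat.pos_of_dvd_of_pos (ha c).2 hq
  have hTq : ∀ c, T c ≤ q := fun c => Nat.le_of_dvd hq (ha c).2
  have hTR : ∀ c, (T c : ℝ) ≤ R := fun c => le_trans (by exact_mod_cast hTq c) hqR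
  have hT1' : ∀ c, (1 : ℝ) ≤ T c := fun c => by exact_mod_cast hT1 c
  have haT : ∑ c, a c * T c ≤ Y := hS₁.trans hτY
  have haa : ∑ c, a c ≤ R ^ s₀ := by
    refine le_trans (sum_le_sum fun c _ => ?_) (hS₁.trans hτR)
    have := mul_le_mul_of_nonneg_left (hT1' c) (ha c).1
    linarith
  have hS₂' : ∑ c, a c ≤ Y * (q : ℝ) ^ (-(2 / (k : ℝ))) :=
    hS₂.trans (mul_le_mul_of_nonneg_right hτY (by positivity))
  set ζ : Fin n → Fin m → UnitAddCircle := fun c i =>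
    ((T c * ((x c : ℝ) / q - τ₀ i / N) : ℝ) : UnitAddCircle) with hζ
  set Bc : Fin n → ℝ := fun c => A * N / T c with hBc
  have hBc0 : ∀ c, 0 < Bc c := fun c => by
    have := hT1' c
    rw [hBc]
    positivity
  set w : Fin n × Fin m → ℝ := fun j => C₁ * a j.1 * A with hw
  set u : Fin n × Fin m → UnitAddCircle → ℝ := fun j y =>
    1 / (1 + Bc j.1 * ‖T j.1 • y + ζ j.1 j.2‖) with hu
  have hw0 : ∀ j, 0 ≤ w j := fun j => by
    have := (ha j.1).1
    rw [hw]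
    positivity
  refine ⟨{y | 1 / (2 * M') ≤ ∑ j, w j * u j y}, ?_, ?_⟩
  · -- the measure
    have h := meas0 (k := k) (m := m) h5 h6 s Y C₁ M' (Lam c₀) N q a T ζ hs hY1 hC₁ hM'0 hN0 hq1
      hL0 (fun c => (ha c).1) hT1 haT hS₂'
    refine h.trans ?_
    have h32 : 0 ≤ 32 * C₁ * (m + 1) * C₃ := by positivity
    have hE1 : E ≤ 1 + 32 * C₁ * (m + 1) * C₃ + E := by linarith
    have hRM : 0 ≤ Y ^ s * M' ^ s * ((q : ℝ) * Lam c₀) ^ (-(2 / (k : ℝ) * (s - 1))) / N := by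
      positivity
    have := mul_le_mul_of_nonneg_right hE1 hRM
    calc _ = E * (Y ^ s * M' ^ s * ((q : ℝ) * Lam c₀) ^ (-(2 / (k : ℝ) * (s - 1))) / N) := by
          rw [hE]
          ring
      _ ≤ _ := this
      _ = _ := by ring
  · intro η τ ξ hη hτ1 hτ2 hVF
    show 1 / (2 * M') ≤ ∑ j, w j * u j (ξ : UnitAddCircle)
    have hg : ∀ s' : ℝ, gI N η τ s' ≤ hh C₁ A Z τ₀ (N * s') := by
      intro s'
      rw [h2 k N η τ s' hN]
      have b1 : -1 ≤ τ / N := by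
        rw [le_div_iff₀ hN0]
        linarith
      have b2 : τ / N + 1 ≤ 1 := by
        have : τ / N ≤ 0 := div_nonpos_of_nonpos_of_nonneg hτ2 hN0.le
        linarith
      have h := hτ₀ (fun i : Fin k => η i * (N : ℝ) ^ (i.val + 1)) hη (N * s') (τ / N)
        (τ / N + 1) b1 (by linarith) b2
      unfold hh
      split_ifs with hc
      · exact h.1
      · exact h.2 (hCZ.trans (not_le.1 hc).le)
    have hh0 : ∀ t, 0 ≤ hh C₁ A Z τ₀ t := by
      intro t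
      unfold hh
      split_ifs
      · refine mul_nonneg hC₁0.le (sum_nonneg fun i _ => ?_)
        have : 0 ≤ A * |t - τ₀ i| := by positivity
        positivity
      · positivity
    set Lg : ℝ := 1 + Real.log (2 * Z * R + 2) with hLg
    set B : Fin n → ℝ := fun c =>
      C₁ * ∑ i, A / (1 + A * N / T c * ‖((T c * (ξ + (x c : ℝ) / q - τ₀ i / N) : ℝ) :
        UnitAddCircle)‖) + 8 * C₁ * m * (T c / N) * Lg + 50 * C₁ * R / Z with hB
    have hfun := h3 k q N f η τ ξ (hh C₁ A Z τ₀) n a T x B hq hN hh0 hg ha hAl (fun c s' => by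
      have := h4 C₁ A Z N R (ξ + (x c : ℝ) / q) (T c) m τ₀ s' hC₁ hA0 hZ1 hN1 (hT1 c) (hTR c)
      exact this)
    have hmain : ∀ c, a c * B c = (∑ i, w (c, i) * u (c, i) (ξ : UnitAddCircle)) +
        8 * C₁ * m / N * Lg * (a c * T c) + 50 * C₁ * R / Z * a c := by
      intro c
      have e1 : ∀ i : Fin m, w (c, i) * u (c, i) (ξ : UnitAddCircle) =
          a c * (C₁ * (A / (1 + A * N / T c * ‖((T c * (ξ + (x c : ℝ) / q - τ₀ i / N) : ℝ) :
            UnitAddCircle)‖))) := by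
        intro i
        have e2 : T c • (ξ : UnitAddCircle) + ζ c i =
            ((T c * (ξ + (x c : ℝ) / q - τ₀ i / N) : ℝ) : UnitAddCircle) := by
          rw [hζ]
          simp only
          rw [← AddCircle.coe_nsmul, ← AddCircle.coe_add, nsmul_eq_mul]
          ring_nf
        simp only [hw, hu, hBc]
        rw [e2]
        ring
      simp only [e1]
      rw [← mul_sum, ← mul_sum, hB]
      ring
    have hVF2 : VF q f N η τ ξ ≤ ∑ j, w j * u j (ξ : UnitAddCircle) +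
        8 * C₁ * m / N * Lg * ∑ c, a c * T c + 50 * C₁ * R / Z * ∑ c, a c := by
      refine hfun.trans (le_of_eq ?_)
      simp only [hmain]
      rw [sum_add_distrib, sum_add_distrib, Fintype.sum_prod_type, ← mul_sum, ← mul_sum]
    -- the two small terms
    have hlX : 0 ≤ Real.log X := Real.log_nonneg hX1
    have hLg1 : Lg ≤ C₃ * (1 + Real.log X) := by
      have := log_small' s₀ C₂ X R hC₂1 hX1 hR1 hRX
      rw [hLg, hZ, hC₃]
      exact this
    have hLg0 : 0 ≤ Lg := by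
      rw [hLg]
      have : 0 ≤ Real.log (2 * Z * R + 2) := Real.log_nonneg (by
        have : 0 ≤ 2 * Z * R := by positivity
        linarith)
      linarith
    have small1 : 8 * C₁ * m / N * Lg * ∑ c, a c * T c ≤ 1 / (4 * M') := by
      have e1 : 8 * C₁ * m / N * Lg * ∑ c, a c * T c ≤
          8 * C₁ * m / N * (C₃ * (1 + Real.log X)) * Y := by
        have e3 : 0 ≤ ∑ c, a c * (T c : ℝ) := sum_nonneg fun c _ =>
          mul_nonneg (ha c).1 (by positivity)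
        gcongr
      refine e1.trans ?_
      have e5 : 8 * C₁ * m / N * (C₃ * (1 + Real.log X)) * Y =
          8 * C₁ * m * C₃ * Y * (1 + Real.log X) / N := by
        ring
      rw [e5, div_le_div_iff₀ hN0 (by positivity)]
      have e6 : 32 * C₁ * (m + 1) * C₃ * Y * (1 + Real.log X) * M' ≤ N := by
        refine le_trans ?_ hCN
        have : 0 ≤ 1 + E := by linarith
        gcongr
        linarith
      have e7 : 0 ≤ 32 * C₁ * C₃ * Y * (1 + Real.log X) * M' := by positivity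
      have e8 : 8 * C₁ * m * C₃ * Y * (1 + Real.log X) * (4 * M') +
          32 * C₁ * C₃ * Y * (1 + Real.log X) * M' =
        32 * C₁ * (m + 1) * C₃ * Y * (1 + Real.log X) * M' := by ring
      linarith
    have small2 : 50 * C₁ * R / Z * ∑ c, a c ≤ 1 / (4 * M') := by
      have e1 : 50 * C₁ * R / Z * ∑ c, a c ≤ 50 * C₁ * R / Z * R ^ s₀ :=
        mul_le_mul_of_nonneg_left haa (by positivity)
      refine e1.trans ?_
      rw [div_mul_eq_mul_div, div_le_div_iff₀ hZ0 (by positivity), one_mul]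
      have e3 : 200 * C₁ * X ^ (3 + s₀) ≤ Z := by
        rw [hZ, hC₂]
        have : 0 ≤ 5 * k * C₁ * X ^ (3 + s₀) := by positivity
        rw [add_mul]
        linarith
      have e4 : R * R ^ s₀ * M' ≤ X ^ (3 + s₀) := by
        have e5 : X ^ (3 + s₀) = X * X ^ s₀ * X * X := by ring
        have e6 : R ^ s₀ ≤ X ^ s₀ := pow_le_pow_left₀ hR0.le hRX _
        have e7 : R * R ^ s₀ * M' ≤ X * X ^ s₀ * X := by gcongr
        rw [e5]
        refine e7.trans ?_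
        exact le_mul_of_one_le_right (by positivity) hX1
      have e6 : 50 * C₁ * R * R ^ s₀ * (4 * M') = 200 * C₁ * (R * R ^ s₀ * M') := by ring
      rw [e6]
      refine le_trans ?_ e3
      exact mul_le_mul_of_nonneg_left e4 (by positivity)
    have e : 1 / M' = 1 / (2 * M') + 1 / (4 * M') + 1 / (4 * M') := by
      field_simp
      norm_num
    linarith

end Pool.Agent.H1.EN
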