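import Pool.Agent.H93.EN.Targets4
import Pool.Agent.H67.BL.G4
import Pool.Agent.H26.BL.B1

/-!
# Row RUH of en_modules: reaching through the first hit
-/

set_option autoImplicit false

namespace Pool.Agent.H1.EN

open MeasureTheory Set Metric Filter Topology Pool.Agent.H93.EN
open Pool.Agent.H93.BL hiding T_B1 T_B2 T_B3 T_SB T_SC

theorem ruh_hit {ι : Type} (P : Polygon ι) {y w : ℂ} {t : ℝ} {z : ι × ℝ × ℝ} (hz : P.Phase z)
    (ht : 0 < t) (hp : P.pos z = y + (t : ℂ) * w) (hin : ∀ r ∈ Ioo 0 t, y + (r : ℂ) * w ∈ P.Ω)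
    (hd : P.dir z = P.refl z.1 w) : P.Hit y w z.1 t := by
  refine ⟨ht, hin, ?_, ?_⟩
  · rw [← hp]
    exact P.pos_mem hz
  · have h1 := P.cos_pos_of_phase hz
    rw [← P.ip_dir_n z, hd, P.ip_refl_n] at h1
    linarith

theorem ruh : T_RUH := by
  intro ι P E U y w t z hz ht hp hin hd
  constructor
  · rintro (h | ⟨z₁, hz₁, ⟨t₁, ht₁, hp₁, hin₁⟩, hd₁, hPR⟩)
    · exact Or.inl h
    · right
      have e1 := ruh_hit P hz ht hp hin hd
      have e2 := ruh_hit P hz₁ ht₁ hp₁ hin₁ hd₁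
      obtain ⟨e3, e4⟩ := (Pool.Agent.H67.BL.G4.g4 ι P y w).1 _ _ _ _ e1 e2
      have e5 : z = z₁ := by
        refine (Pool.Agent.H26.BL.B1.b1 ι P z z₁).2.1 hz hz₁ e4 ?_ ?_
        · rw [hp, hp₁, e3]
        · rw [hd, hd₁, e4]
      rw [e5]
      exact hPR
  · rintro (h | h)
    · exact Or.inl h
    · exact Or.inr ⟨z, hz, ⟨t, ht, hp, hin⟩, hd, h⟩

end Pool.Agent.H1.EN
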