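import Pool.Agent.H93.EN.Targets4
import Pool.Agent.H31.BL.G1

/-!
# Row SD0 of en_modules: the table near an inner point of a side
-/

set_option autoImplicit false

namespace Pool.Agent.H1.EN

open MeasureTheory Set Metric Filter Topology Pool.Agent.H93.EN
open Pool.Agent.H93.BL hiding T_B1 T_B2 T_B3 T_SB T_SC

theorem sg_eq_ip {ι : Type} (P : Polygon ι) (j : ι) {x : ℂ}
    (hx : x ∈ openSegment ℝ (P.p j) (P.q j)) (y : ℂ) :
    sg P j y = ip (y - x) (P.n j) := by
  obtain ⟨s, -, -, rfl⟩ := (P.mem_openSegment_iff j x).1 hx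
  unfold sg
  rw [P.ip_n]
  have h : y - (P.p j + (s : ℂ) * P.u j) = (y - P.p j) - (s : ℂ) * P.u j := by ring
  rw [h, cr_sub_right _ (y - P.p j), cr_smul_right, cr_self]
  ring

theorem sd0 : T_SD0 := by
  intro ι _ P j x hx
  obtain ⟨ρ, hρ, h1, h2, h3, h4⟩ := Pool.Agent.H31.BL.G1.g1 ι P j x hx
  have hfr : ∀ y, dist y x < ρ → sg P j y = 0 → y ∉ P.Ω := by
    intro y hy h0 hyΩ
    rw [sg_eq_ip P j hx] at h0
    have h5 := h2 y hy h0
    have h6 : y ∈ frontier P.Ω := by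
      rw [P.frontier_eq]
      exact mem_iUnion.2 ⟨j, openSegment_subset_segment ℝ _ _ h5⟩
    rw [P.isOpen.frontier_eq] at h6
    exact h6.2 hyΩ
  by_cases hc : ∃ y, dist y x < ρ ∧ ip (y - x) (P.n j) < 0 ∧ y ∈ P.Ω
  · obtain ⟨j', hj1, hj2⟩ := h4 hc
    have hx' : x ∈ openSegment ℝ (P.p j') (P.q j') := by
      rw [hj1, hj2, openSegment_symm]
      exact hx
    have hu : P.u j' = -P.u j := P.u_reversed hj1 hj2
    have hsg : ∀ y, sg P j' y = -sg P j y := by
      intro y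
      rw [sg_eq_ip P j' hx', sg_eq_ip P j hx, P.ip_n, P.ip_n, hu, cr_neg_left]
    obtain ⟨ρ', hρ', h1', -, -, -⟩ := Pool.Agent.H31.BL.G1.g1 ι P j' x hx'
    refine ⟨min ρ ρ', lt_min hρ hρ', Or.inr ⟨j', hj1, hj2, hsg, ?_⟩⟩
    intro y hy
    rw [mem_ball] at hy
    constructor
    · intro hyΩ h0
      exact hfr y (lt_of_lt_of_le hy (min_le_left _ _)) h0 hyΩ
    · intro h0
      rcases lt_or_gt_of_ne h0 with h5 | h5
      · apply h1' y (lt_of_lt_of_le hy (min_le_right _ _))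
        rw [← sg_eq_ip P j' hx', hsg]
        linarith
      · apply h1 y (lt_of_lt_of_le hy (min_le_left _ _))
        rw [← sg_eq_ip P j hx]
        exact h5
  · refine ⟨ρ, hρ, Or.inl ?_⟩
    intro y hy
    rw [mem_ball] at hy
    constructor
    · intro hyΩ
      rcases lt_trichotomy (sg P j y) 0 with h5 | h5 | h5
      · exact absurd ⟨y, hy, by rwa [← sg_eq_ip P j hx], hyΩ⟩ hc
      · exact absurd hyΩ (hfr y hy h5)
      · exact h5
    · intro h5
      apply h1 y hy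
      rw [← sg_eq_ip P j hx]
      exact h5

end Pool.Agent.H1.EN
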